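import Mathlib

namespace Pool.Agent.Results.MP_f0917b_co.Yes

open Finset

/-- the Mycielski graph: old vertices, their twins, and the apex -/
def Myc {V : Type} (G : SimpleGraph V) : SimpleGraph (V ⊕ V ⊕ Unit) :=
  SimpleGraph.fromRel fun x y => match x, y with
    | .inl a, .inl b => G.Adj a b
    | .inl a, .inr (.inl b) => G.Adj a b
    | .inr (.inl _), .inr (.inr _) => True
    | _, _ => False

def VT (V : Type) : ℕ → Type
  | 0 => V
  | t + 1 => VT V t ⊕ VT V t ⊕ Unit

def It {V : Type} (G : SimpleGraph V) : ∀ t, SimpleGraph (VT V t)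
  | 0 => G
  | t + 1 => Myc (It G t)

def L21 {V : Type} (G : SimpleGraph V) (f : V → ℕ) : Prop :=
  (∀ u v, G.Adj u v → f u + 2 ≤ f v ∨ f v + 2 ≤ f u) ∧ ∀ u v, G.dist u v = 2 → f u ≠ f v

def LL {V : Type} (G : SimpleGraph V) (f : V → ℕ) : Prop :=
  (∀ u v, G.Adj u v → f u + 2 ≤ f v ∨ f v + 2 ≤ f u) ∧
    ∀ u v w, u ≠ v → G.Adj u w → G.Adj v w → f u ≠ f v

lemma order (N d s : ℕ) (hs : s < N) (hN : 2 * d + 2 ≤ N) (r : ℕ → ℕ → Prop)
    (sy : ∀ a b, r a b → r b a) (lt : ∀ a b, r a b → b < N)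
    (dg : ∀ a, ∃ S : Finset ℕ, S.card ≤ d ∧ ∀ b, r b a → b ∈ S) :
    ∃ q : Equiv.Perm ℕ, q 0 = s ∧ (∀ k, N ≤ k → q k = k) ∧ ∀ k < N, ¬ r (q k) (q (k + 1)) := by
  classical
  obtain ⟨q, ⟨h1, h2⟩, hm⟩ := exists_minimalFor_of_wellFoundedLT
    (fun q : Equiv.Perm ℕ => q 0 = s ∧ ∀ k, N ≤ k → q k = k)
    (fun q => ((range N).filter fun k => r (q k) (q (k + 1))).card)
    ⟨Equiv.swap 0 s, by simp, fun k hk => Equiv.swap_apply_of_ne_of_ne (by omega) (by omega)⟩
  refine ⟨q, h1, h2, fun j hj hr => ?_⟩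
  obtain ⟨A, a1, a2⟩ := dg (q j)
  obtain ⟨B, b1, b2⟩ := dg (q (j + 1))
  obtain ⟨i, hi, hi'⟩ := exists_mem_notMem_of_card_lt_card (t := range N)
    (s := insert j (A.image q.symm ∪ B.image fun b => q.symm b - 1)) (by
      have := card_insert_le j (A.image q.symm ∪ B.image fun b => q.symm b - 1)
      have := card_union_le (A.image q.symm) (B.image fun b => q.symm b - 1)
      have := card_image_le (s := A) (f := q.symm)
      have := card_image_le (s := B) (f := fun b => q.symm b - 1)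
      rw [card_range]; omega)
  simp only [mem_insert, mem_union, mem_image, not_or, not_exists, not_and, mem_range] at hi hi'
  have g1 : ¬ r (q i) (q j) := fun k => hi'.2.1 _ (a2 _ k) (by simp)
  have g2 : ¬ r (q (i + 1)) (q (j + 1)) := fun k => hi'.2.2 _ (b2 _ k) (by simp)
  obtain ⟨lo, hi, l1, l2, l3, l4, l5⟩ : ∃ lo hi, lo < hi ∧ hi < N ∧ (j = lo ∨ j = hi) ∧
      ¬ r (q lo) (q hi) ∧ ¬ r (q (lo + 1)) (q (hi + 1)) := by
    rcases lt_or_gt_of_ne hi'.1 with k | k
    exacts [⟨i, j, k, hj, Or.inr rfl, g1, g2⟩,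
      ⟨j, i, k, hi, Or.inl rfl, fun k => g1 (sy _ _ k), fun k => g2 (sy _ _ k)⟩]
  let ρ : ℕ → ℕ := fun k => if lo < k ∧ k ≤ hi then lo + 1 + hi - k else k
  have iv : Function.Involutive ρ := fun k => by simp only [ρ]; split_ifs <;> omega
  have le : (((range N).filter fun k => r (q (ρ k)) (q (ρ (k + 1)))).card) ≤
      (((range N).filter fun k => r (q k) (q (k + 1))).erase j).card := by
    refine card_le_card_of_injOn (fun k => if lo < k ∧ k < hi then lo + hi - k else k)
      (fun k hk => ?_) fun a _ b _ e => by simp only at e; split_ifs at e <;> omega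
    simp only [coe_filter, mem_range, Set.mem_ofPred_eq, coe_erase, Set.mem_sdiff,
      Set.mem_singleton_iff] at hk ⊢
    obtain ⟨k1, k2⟩ := hk
    have n1 : k ≠ lo := by
      rintro rfl
      rw [show ρ k = k by simp [ρ], show ρ (k + 1) = hi by simp only [ρ]; split_ifs <;> omega] at k2
      exact l4 k2
    have n2 : k ≠ hi := by
      rintro rfl
      rw [show ρ k = lo + 1 by simp only [ρ]; split_ifs <;> omega,
        show ρ (k + 1) = k + 1 by simp [ρ]] at k2
      exact l5 k2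
    split_ifs with h
    · rw [show ρ k = lo + hi - k + 1 by simp only [ρ]; split_ifs <;> omega,
        show ρ (k + 1) = lo + hi - k by simp only [ρ]; split_ifs <;> omega] at k2
      exact ⟨⟨by omega, sy _ _ k2⟩, by omega⟩
    · rw [show ρ k = k by simp only [ρ]; split_ifs <;> omega,
        show ρ (k + 1) = k + 1 by simp only [ρ]; split_ifs <;> omega] at k2
      exact ⟨⟨k1, k2⟩, by omega⟩
  have lt' := card_erase_lt_of_mem (s := (range N).filter fun k => r (q k) (q (k + 1))) (a := j)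
    (by simp [hj, hr])
  have := hm (j := q * iv.toPerm) ⟨by simp [ρ, h1], fun k hk => by
    simp only [Equiv.Perm.mul_apply, Function.Involutive.coe_toPerm, ρ]
    rw [if_neg (by omega), h2 k hk]⟩ (le.trans lt'.le)
  exact absurd (this.trans le) (not_le.2 lt')

variable {V : Type} {G : SimpleGraph V}

lemma build {f g : V → ℕ} (h : LL G f) (h1 : g.Injective) (h2 : ∀ x, 2 ≤ g x) (h3 : ∀ x, 1 ≤ f x)
    (h4 : ∀ a b, G.Adj a b → f a + 2 ≤ g b ∨ g b + 2 ≤ f a)
    (h5 : ∀ a b c, G.Adj a c → G.Adj b c → f a ≠ g b) :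
    LL (Myc G) (Sum.elim f (Sum.elim g fun _ => 0)) := by
  have sy : ∀ {a b}, G.Adj a b ∨ G.Adj b a → G.Adj a b := fun k => k.elim id G.adj_symm
  constructor
  · rintro (a | a | a) (b | b | b) k <;> simp [Myc] at k ⊢
    exacts [h.1 a b (sy k.2), h4 a b k, (h4 b a k).symm, h2 a, h2 b]
  · rintro (a | a | a) (b | b | b) (c | c | c) e k k' <;> simp [Myc] at e k k' ⊢
    exacts [h.2 a b c e (sy k.2) (sy k'.2), h.2 a b c e k k', h5 a b c (sy k.2) k'.symm,
      by have := h3 a; omega, (h5 b a c (sy k'.2) k.symm).symm, h1.ne e, h1.ne e,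
      by have := h3 b; omega]

lemma step [Finite V] [Nonempty V] {K : ℕ} (h : ∃ f, LL G f ∧ ∀ x, f x ≤ K) :
    ∃ f, LL (Myc G) f ∧ ∀ x, f x ≤ K + (Nat.card V + 1) := by
  classical
  obtain ⟨f, h1, h2⟩ := h
  obtain ⟨x0, hx⟩ := Finite.exists_max f
  let e0 := Finite.equivFin V
  let e := e0.trans (Equiv.swap (e0 x0) ⟨0, Nat.card_pos⟩)
  have he : ∀ b, (e b : ℕ) = 0 → b = x0 := fun b k => e.injective (Fin.ext (by rw [k]; simp [e]))
  refine ⟨_, build (f := fun x => f x + 1) (g := fun x => K + 2 + e x)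
    ⟨fun u v k => by simpa [Nat.add_right_comm _ 1 2] using h1.1 u v k,
      fun u v w a b c => by simpa using h1.2 u v w a b c⟩
    (fun a b k => e.injective (Fin.ext (by simpa using k))) (fun x => by omega) (fun x => by omega)
    (fun a b k => ?_) (fun a b _ _ _ => by have := h2 a; omega), ?_⟩
  · have := h2 a
    have := h2 x0
    have := hx a
    have := h1.1 a b k
    by_cases z : (e b : ℕ) = 0
    · rw [he b z] at this; omega
    · omega
  · rintro (a | a | a) <;> simp only [Sum.elim_inl, Sum.elim_inr]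
    exacts [by have := h2 a; omega, by have := (e a).2; omega, by omega]

def lab (m i : ℕ) : ℕ :=
  if m % 3 = 1 ∧ i + 3 = m then 3 else if m % 3 = 1 ∧ i + 2 = m then 1 else
  if m % 3 = 1 ∧ i + 1 = m then 4 else if m % 3 = 2 ∧ i + 2 = m ∧ 2 < m then 1 else
  if m % 3 = 2 ∧ i + 1 = m then 3 else 2 * (i % 3)

def Nb (m i j : ℕ) : Prop := j = i + 1 ∨ i = j + 1 ∨ (3 ≤ m ∧ (i = 0 ∧ j + 1 = m ∨ j = 0 ∧ i + 1 = m))

lemma lab0 (m i : ℕ) : (m % 3 = 0 ∨ i + 4 ≤ m → lab m i = 2 * (i % 3)) ∧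
    (m % 3 = 1 → (i + 3 = m → lab m i = 3) ∧ (i + 2 = m → lab m i = 1) ∧ (i + 1 = m → lab m i = 4)) ∧
    (m % 3 = 2 → (i + 3 = m → lab m i = 4) ∧ (i + 2 = m → lab m i = 1 ∨ lab m i = 0 ∧ i = 0) ∧
      (i + 1 = m → lab m i = 3)) := by
  unfold lab; split_ifs <;> omega

lemma lab1 {m i j : ℕ} (hi : i < m) (hj : j < m) (h : Nb m i j) :
    lab m i + 2 ≤ lab m j ∨ lab m j + 2 ≤ lab m i := by
  have a := lab0 m i
  have b := lab0 m j
  rcases (by omega : m % 3 = 0 ∨ m % 3 = 1 ∨ m % 3 = 2) with k | k | k <;>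
    simp only [k, true_or, forall_const, OfNat.zero_ne_ofNat, zero_ne_one, one_ne_zero, false_or,
      OfNat.one_ne_ofNat, OfNat.ofNat_ne_zero, OfNat.ofNat_ne_one, IsEmpty.forall_iff, and_true,
      true_and] at a b <;> rcases h with h | h | ⟨h, h' | h'⟩ <;> omega

lemma lab3 {m i : ℕ} (h : i + 2 < m) : lab m i ≠ lab m (i + 2) := by
  unfold lab; split_ifs <;> omega

lemma lab4 {j : ℕ} (h : j ≠ 0) : lab (j + 2) 0 ≠ lab (j + 2) j := by
  unfold lab; split_ifs <;> omega

lemma lab5 {j : ℕ} (h : 1 < j) : lab (j + 1) 1 ≠ lab (j + 1) j := by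
  unfold lab; split_ifs <;> omega

lemma lab2 {m i j k : ℕ} (hi : i < m) (hj : j < m) (hk : k < m) (e : i ≠ j) (h : Nb m k i)
    (h' : Nb m k j) : lab m i ≠ lab m j := by
  have c : j = i + 2 ∨ i = j + 2 ∨ (i = 0 ∧ j + 2 = m) ∨ (j = 0 ∧ i + 2 = m) ∨
      (i = 1 ∧ j + 1 = m) ∨ (j = 1 ∧ i + 1 = m) := by unfold Nb at *; omega
  rcases c with rfl | rfl | ⟨rfl, rfl⟩ | ⟨rfl, rfl⟩ | ⟨rfl, rfl⟩ | ⟨rfl, rfl⟩
  exacts [lab3 hj, (lab3 hi).symm, lab4 e.symm, (lab4 e).symm, lab5 (by omega),
    (lab5 (by omega)).symm]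

lemma deg2 [Finite V] (h : ∀ x a b c, G.Adj x a → G.Adj x b → G.Adj x c → a ≠ b → c = a ∨ c = b)
    (S : Finset V) : (∀ x ∈ S, ∀ y, G.Adj x y → y ∈ S) → ∃ f : V → ℕ, (∀ x, f x ≤ 4) ∧
      (∀ u ∈ S, ∀ v, G.Adj u v → f u + 2 ≤ f v ∨ f v + 2 ≤ f u) ∧
      ∀ u ∈ S, ∀ v w, u ≠ v → G.Adj u w → G.Adj v w → f u ≠ f v := by
  classical
  induction S using Finset.strongInduction with
  | H S ih =>
  intro hS
  rcases S.eq_empty_or_nonempty with rfl | ⟨x0, hx0⟩
  · exact ⟨fun _ => 0, by simp, by simp, by simp⟩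
  let A := {m | ∃ p : ℕ → V, (∀ i < m, ∀ j < m, p i = p j → i = j) ∧ (∀ i < m, p i ∈ S) ∧
    ∀ i, i + 1 < m → G.Adj (p i) (p (i + 1))}
  have bd : BddAbove A := ⟨S.card, fun m ⟨p, a, b, _⟩ => by
    simpa using card_le_card_of_injOn (s := range m) p (fun i hi => b i (by simpa using hi))
      fun i hi j hj => a i (by simpa using hi) j (by simpa using hj)⟩
  have a1 : 1 ∈ A := ⟨fun _ => x0, by omega, fun _ _ => hx0, by omega⟩
  obtain ⟨p, p1, p2, p3⟩ := Nat.sSup_mem ⟨1, a1⟩ bd
  have m1 := le_csSup bd a1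
  have mx : sSup A + 1 ∉ A := fun k => by have := le_csSup bd k; omega
  generalize sSup A = m at *
  have it : ∀ i, 0 < i → i + 1 < m → ∀ y, G.Adj (p i) y → y = p (i - 1) ∨ y = p (i + 1) :=
    fun i a b y k => h _ _ _ _ (by
      have := (p3 (i - 1) (by omega)).symm; rwa [Nat.sub_add_cancel a] at this) (p3 i b) k
        fun e => by have := p1 _ (by omega) _ b e; omega
  have key : ∀ i < m, ∀ y, G.Adj (p i) y → ∃ j < m, y = p j ∧ Nb m i j := by
    intro i hi y k
    obtain ⟨j, hj, rfl⟩ : ∃ j < m, y = p j := by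
      by_contra! c
      by_cases z : i = 0
      · refine mx ⟨fun n => if n = 0 then y else p (n - 1), fun a ha b hb e => ?_, fun a ha => ?_,
          fun a ha => ?_⟩
        · dsimp only at e
          split_ifs at e
          exacts [by omega, absurd e (c _ (by omega)), absurd e.symm (c _ (by omega)),
            by have := p1 _ (by omega) _ (by omega) e; omega]
        · dsimp only
          split_ifs
          exacts [hS _ (p2 i hi) y k, p2 _ (by omega)]
        · simp only [add_eq_zero, one_ne_zero, and_false, if_false, add_tsub_cancel_right]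
          split_ifs with e
          · rw [e, ← z]; exact k.symm
          · have := p3 (a - 1) (by omega)
            rwa [Nat.sub_add_cancel (by omega)] at this
      by_cases z' : i + 1 = m
      · refine mx ⟨fun n => if n = m then y else p n, fun a ha b hb e => ?_, fun a ha => ?_,
          fun a ha => ?_⟩
        · dsimp only at e
          split_ifs at e
          exacts [by omega, absurd e (c _ (by omega)), absurd e.symm (c _ (by omega)),
            p1 _ (by omega) _ (by omega) e]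
        · dsimp only
          split_ifs
          exacts [hS _ (p2 i hi) y k, p2 _ (by omega)]
        · simp only [if_neg (show a ≠ m by omega)]
          split_ifs with e
          · rwa [show a = i by omega]
          · exact p3 a (by omega)
      · exact (it i (by omega) (by omega) y k).elim (c _ (by omega)) (c _ (by omega))
    refine ⟨j, hj, rfl, ?_⟩
    have ne : i ≠ j := by rintro rfl; exact k.ne rfl
    unfold Nb
    by_cases z : 0 < j ∧ j + 1 < m
    · rcases it j z.1 z.2 _ k.symm with e | e <;> have := p1 _ hi _ (by omega) e <;> omega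
    by_cases z' : 0 < i ∧ i + 1 < m
    · rcases it i z'.1 z'.2 _ k with e | e <;> have := p1 _ hj _ (by omega) e <;> omega
    omega
  obtain ⟨f, f1, f2, f3⟩ := ih (S \ (range m).image p) (sdiff_ssubset (image_subset_iff.2
    fun i hi => p2 i (by simpa using hi)) ⟨p 0, mem_image_of_mem _ (mem_range.2 m1)⟩)
    fun x hx y k => mem_sdiff.2 ⟨hS x (mem_sdiff.1 hx).1 y k, fun k' => by
      obtain ⟨j, hj, rfl⟩ := mem_image.1 k'
      obtain ⟨i, hi, rfl, -⟩ := key j (by simpa using hj) x k.symm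
      exact (mem_sdiff.1 hx).2 (mem_image_of_mem _ (by simpa using hi))⟩
  let F := fun x => if k : ∃ i < m, x = p i then lab m k.choose else f x
  have F1 : ∀ i < m, F (p i) = lab m i := fun i hi => by
    have k : ∃ j < m, p i = p j := ⟨i, hi, rfl⟩
    simp only [F, dif_pos k]
    rw [← p1 i hi _ k.choose_spec.1 k.choose_spec.2]
  have F2 : ∀ x y, G.Adj x y → (¬ ∃ i < m, x = p i) → ¬ ∃ i < m, y = p i := by
    rintro x y k c ⟨j, hj, rfl⟩
    obtain ⟨i, hi, e, -⟩ := key j hj x k.symm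
    exact c ⟨i, hi, e⟩
  have F3 : ∀ u ∈ S, (¬ ∃ i < m, u = p i) → u ∈ S \ (range m).image p := fun u hu c => by
    simpa [hu, eq_comm] using c
  refine ⟨F, fun x => ?_, fun u hu v k => ?_, fun u hu v w e k k' => ?_⟩
  · simp only [F, lab]; split_ifs <;> first | omega | exact f1 x
  · by_cases c : ∃ i < m, u = p i
    · obtain ⟨i, hi, rfl⟩ := c
      obtain ⟨j, hj, rfl, n⟩ := key i hi v k
      rw [F1 i hi, F1 j hj]
      exact lab1 hi hj n
    · simp only [F, dif_neg c, dif_neg (F2 u v k c)]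
      exact f2 u (F3 u hu c) v k
  · by_cases c : ∃ i < m, w = p i
    · obtain ⟨l, hl, rfl⟩ := c
      obtain ⟨i, hi, rfl, n⟩ := key l hl u k.symm
      obtain ⟨j, hj, rfl, n'⟩ := key l hl v k'.symm
      rw [F1 i hi, F1 j hj]
      exact lab2 hi hj hl (by rintro rfl; exact e rfl) n n'
    · simp only [F, dif_neg (F2 w u k.symm c), dif_neg (F2 w v k'.symm c)]
      exact f3 u (F3 u hu (F2 w u k.symm c)) v w e k k'

lemma big [Fintype V] [DecidableRel G.Adj] {D : ℕ} (hD : 3 ≤ D) (h : ∀ x, G.degree x ≤ D)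
    (hn : D < Nat.card V) : ∃ f, LL (Myc G) f ∧ ∀ x, f x ≤ Nat.card V + 1 + D ^ 2 := by
  classical
  set n := Nat.card V with hn'
  let g0 : V → ℕ := fun x => Finite.equivFin V x
  have g1 : g0.Injective := fun a b e => (Finite.equivFin V).injective (Fin.ext e)
  have g2 : ∀ x, g0 x < n := fun x => (Finite.equivFin V x).2
  let B : V → Finset V := fun i => if n ≤ 1 + D ^ 2 then univ else
    insert i ((G.neighborFinset i).biUnion fun c => insert c ((G.neighborFinset c).erase i))
  have B1 : ∀ i, (B i).card ≤ 1 + D ^ 2 := fun i => by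
    simp only [B]
    split_ifs with k
    · rwa [card_univ, Fintype.card_eq_nat_card]
    refine (card_insert_le _ _).trans ?_
    rw [add_comm, sq]
    refine Nat.add_le_add_left ((card_biUnion_le_card_mul _ _ D fun c hc => ?_).trans
      (Nat.mul_le_mul_right _ (h i))) _
    have := card_insert_le c ((G.neighborFinset c).erase i)
    have := card_erase_lt_of_mem (s := G.neighborFinset c) (a := i) (by simpa [G.adj_comm] using hc)
    have : (G.neighborFinset c).card ≤ D := h c
    omega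
  obtain ⟨f0, f1, f2⟩ := (all_card_le_biUnion_card_iff_exists_injective
    fun i => range (n + 1 + D ^ 2) \ (B i).image g0).1 fun s => by
      rcases s.eq_empty_or_nonempty with rfl | ⟨i, hi⟩
      · simp
      refine le_trans ?_ (card_le_card (subset_biUnion_of_mem _ hi))
      have := le_card_sdiff ((B i).image g0) (range (n + 1 + D ^ 2))
      have := card_image_le (s := B i) (f := g0)
      have := B1 i
      have : s.card ≤ n := by rw [hn', ← Fintype.card_eq_nat_card]; exact card_le_univ s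
      simp only [card_range] at *
      omega
  simp only [mem_sdiff, mem_range, mem_image, not_exists, not_and] at f2
  let r := fun a b => ∃ x y, G.Adj x y ∧
    (a = f0 x ∧ b = f0 y ∨ a = f0 x ∧ b = g0 y ∨ a = g0 x ∧ b = f0 y)
  have im : ∀ (y : V) (φ : V → ℕ), ((G.neighborFinset y).image φ).card ≤ D := fun y φ =>
    card_image_le.trans (h y)
  obtain ⟨q, q1, q2, q3⟩ := order (n + 1 + D ^ 2) (if n ≤ 1 + D ^ 2 then 2 * D else 3 * D) n
    (by omega) (by split_ifs <;> nlinarith) r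
    (fun a b ⟨x, y, k, k'⟩ => ⟨y, x, k.symm, by tauto⟩)
    (fun a b ⟨x, y, k, k'⟩ => by have := (f2 y).1; have := g2 y; omega) fun a => by
      obtain ⟨S, s1, s2⟩ : ∃ S : Finset ℕ, S.card ≤ (if ∃ y, f0 y = a then 2 * D else 0) ∧
          ∀ x y, G.Adj x y → f0 y = a → f0 x ∈ S ∧ g0 x ∈ S := by
        split_ifs with k
        · obtain ⟨y, rfl⟩ := k
          refine ⟨(G.neighborFinset y).image f0 ∪ (G.neighborFinset y).image g0,
            (card_union_le _ _).trans (by have := im y f0; have := im y g0; omega),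
            fun x z k e => ?_⟩
          obtain rfl := f1 e
          exact ⟨mem_union_left _ (mem_image_of_mem _ (by simpa using k.symm)),
            mem_union_right _ (mem_image_of_mem _ (by simpa using k.symm))⟩
        · exact ⟨∅, by simp, fun x y _ e => (k ⟨y, e⟩).elim⟩
      obtain ⟨T, t1, t2⟩ : ∃ S : Finset ℕ, S.card ≤ (if ∃ y, g0 y = a then D else 0) ∧
          ∀ x y, G.Adj x y → g0 y = a → f0 x ∈ S := by
        split_ifs with k
        · obtain ⟨y, rfl⟩ := k
          refine ⟨(G.neighborFinset y).image f0, im y f0, fun x z k e => ?_⟩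
          obtain rfl := g1 e
          exact mem_image_of_mem _ (by simpa using k.symm)
        · exact ⟨∅, by simp, fun x y _ e => (k ⟨y, e⟩).elim⟩
      refine ⟨S ∪ T, (card_union_le _ _).trans ?_, ?_⟩
      · by_cases c : n ≤ 1 + D ^ 2 ∧ (∃ y, f0 y = a) ∧ ∃ y, g0 y = a
        · obtain ⟨c3, ⟨y, rfl⟩, z, e⟩ := c
          exact ((f2 y).2 z (by simp [B, c3]) e).elim
        · split_ifs at s1 t1 ⊢ <;> first | omega | tauto
      · rintro b ⟨x, y, k, ⟨rfl, e⟩ | ⟨rfl, e⟩ | ⟨rfl, e⟩⟩
        exacts [mem_union_left _ (s2 x y k e.symm).1, mem_union_right _ (t2 x y k e.symm),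
          mem_union_left _ (s2 x y k e.symm).2]
  have lt : ∀ a < n + 1 + D ^ 2, q.symm a < n + 1 + D ^ 2 := fun a ha => by
    by_contra! k
    have := q2 _ k
    rw [q.apply_symm_apply] at this
    omega
  have far : ∀ a b, a < n + 1 + D ^ 2 → b < n + 1 + D ^ 2 → a ≠ b → r a b → r b a →
      q.symm a + 1 + 2 ≤ q.symm b + 1 ∨ q.symm b + 1 + 2 ≤ q.symm a + 1 := fun a b ha hb e k k' => by
    have := q.symm.injective.ne e
    have : q.symm a + 1 ≠ q.symm b := fun z => q3 _ (lt a ha) (by simpa [z] using k)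
    have : q.symm b + 1 ≠ q.symm a := fun z => q3 _ (lt b hb) (by simpa [z] using k')
    omega
  refine ⟨_, build (f := fun x => q.symm (f0 x) + 1) (g := fun x => q.symm (g0 x) + 1)
    ⟨fun u v k => far _ _ (f2 u).1 (f2 v).1 (f1.ne k.ne) ⟨u, v, k, by simp⟩ ⟨v, u, k.symm, by simp⟩,
      fun u v _ e _ _ => by simpa using f1.ne e⟩ (fun a b e => g1 (by simpa using e))
    (fun x => ?_) (fun x => by omega) (fun a b k => far _ _ (f2 a).1 (by have := g2 b; omega)
      (fun e => (f2 a).2 b ?_ e.symm) ⟨a, b, k, by simp⟩ ⟨b, a, k.symm, by simp⟩)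
    (fun a b c k k' e => (f2 a).2 b ?_ (by simpa using e.symm)), ?_⟩
  · have : q.symm (g0 x) ≠ 0 := fun z => by
      have := g2 x
      rw [Equiv.symm_apply_eq, q1] at z
      omega
    omega
  · simp only [B]
    split_ifs
    · simp
    · exact mem_insert_of_mem (mem_biUnion.2 ⟨b, by simpa, by simp⟩)
  · simp only [B]
    split_ifs
    · simp
    · by_cases z : b = a
      · simp [z]
      · exact mem_insert_of_mem (mem_biUnion.2 ⟨c, by simpa, by simp [z, k'.symm]⟩)
  · rintro (a | a | a) <;> simp only [Sum.elim_inl, Sum.elim_inr]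
    exacts [lt _ (f2 a).1, lt _ (by have := g2 a; omega), by omega]

lemma one [Finite V] (h : ∀ x a b, G.Adj x a → G.Adj x b → a = b) :
    ∃ f, LL (Myc G) f ∧ ∀ x, f x ≤ Nat.card V + 1 + 1 ^ 2 := by
  classical
  let e := Finite.equivFin V
  have k : ∀ a b, G.Adj a b → (e a : ℕ) ≠ e b ∧ ((∃ y, G.Adj a y ∧ (e a : ℕ) < e y) ↔ (e a : ℕ) < e b) :=
    fun a b k => ⟨fun z => k.ne (e.injective (Fin.ext z)),
      fun ⟨y, k1, k2⟩ => h a y b k1 k ▸ k2, fun z => ⟨b, k, z⟩⟩
  refine ⟨_, build (f := fun x => if ∃ y, G.Adj x y ∧ (e x : ℕ) < e y then 1 else Nat.card V + 2)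
    (g := fun x => e x + 2) ⟨fun u v a => ?_, fun u v w z a b => (z (h w u v a.symm b.symm)).elim⟩
    (fun a b z => e.injective (Fin.ext (by simpa using z))) (fun x => by omega)
    (fun x => by split_ifs <;> omega) (fun u v a => ?_) (fun u v w _ _ => ?_), ?_⟩
  · have := (e u).2
    have := k u v a
    simp only [(k u v a).2, (k v u a.symm).2]
    split_ifs <;> omega
  · have := (e u).2
    have := k u v a
    simp only [(k u v a).2]
    split_ifs <;> omega
  · have := (e v).2
    split_ifs <;> omega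
  · rintro (a | a | a) <;> simp only [Sum.elim_inl, Sum.elim_inr]
    exacts [by split_ifs <;> omega, by have := (e a).2; omega, by omega]

theorem result (V : Type) [Fintype V] [Nonempty V] (G : SimpleGraph V) [DecidableRel G.Adj]
    (t : ℕ) (ht : 1 ≤ t) : ∃ f : VT V t → ℕ, L21 (It G t) f ∧
      ∀ x, f x ≤ (2 ^ t - 1) * (Fintype.card V + 1) + G.maxDegree ^ 2 := by
  classical
  have dg := G.degree_le_maxDegree
  have base : ∃ f, LL (Myc G) f ∧ ∀ x, f x ≤ Nat.card V + 1 + G.maxDegree ^ 2 := by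
    rcases (by omega : G.maxDegree = 0 ∨ G.maxDegree = 1 ∨ G.maxDegree = 2 ∨ 3 ≤ G.maxDegree)
      with k | k | k | k
    · have : ∀ u v, ¬ G.Adj u v := fun u v a => by
        have := (G.degree_pos_iff_exists_adj u).2 ⟨v, a⟩
        have := dg u
        omega
      simpa [k] using step (G := G) (K := 0) ⟨fun _ => 0, ⟨by simp [this], by simp [this]⟩, by simp⟩
    · rw [k]
      exact one fun x a b h1 h2 => card_le_one.1 ((dg x).trans_eq k) a (by simpa) b (by simpa)
    · obtain ⟨f, f1, f2, f3⟩ := deg2 (G := G) (fun x a b c h1 h2 h3 e => by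
        by_contra! z
        have : ({a, b, c} : Finset V).card ≤ 2 := (card_le_card (t := G.neighborFinset x)
          (by simp [insert_subset_iff, h1, h2, h3])).trans ((dg x).trans_eq k)
        rw [card_eq_three.2 ⟨a, b, c, e, z.1.symm, z.2.symm, rfl⟩] at this
        omega) univ (by simp)
      rw [k, add_comm]
      exact step ⟨f, ⟨fun u => f2 u (by simp), fun u => f3 u (by simp)⟩, f1⟩
    · exact big k dg (Fintype.card_eq_nat_card (α := V) ▸ G.maxDegree_lt_card_verts)
  have all : ∀ t, Finite (VT V (t + 1)) ∧ Nat.card (VT V (t + 1)) + 1 = 2 ^ (t + 1) * (Nat.card V + 1) ∧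
      ∃ f, LL (It G (t + 1)) f ∧ ∀ x, f x + (Nat.card V + 1) ≤
        2 ^ (t + 1) * (Nat.card V + 1) + G.maxDegree ^ 2 := by
    intro t
    induction t with
    | zero =>
      refine ⟨inferInstanceAs (Finite (V ⊕ V ⊕ Unit)), ?_, base.imp fun f k =>
        ⟨k.1, fun x => by have := k.2 x; omega⟩⟩
      change Nat.card (V ⊕ V ⊕ Unit) + 1 = _
      simp only [Nat.card_sum, Nat.card_unique]; omega
    | succ t ih =>
      obtain ⟨i1, i2, f, i3, i4⟩ := ih
      have : Nonempty (VT V (t + 1)) := ⟨.inr (.inr ())⟩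
      obtain ⟨g, g1, g2⟩ := step (G := It G (t + 1)) (K := 2 ^ (t + 1) * (Nat.card V + 1) +
        G.maxDegree ^ 2 - (Nat.card V + 1)) ⟨f, i3, fun x => by have := i4 x; omega⟩
      have := i4 (.inr (.inr ()))
      refine ⟨inferInstanceAs (Finite (_ ⊕ _ ⊕ Unit)), ?_, g, g1, fun x => ?_⟩
      · change Nat.card (VT V (t + 1) ⊕ VT V (t + 1) ⊕ Unit) + 1 = _
        simp only [Nat.card_sum, Nat.card_unique]
        rw [pow_succ' 2 (t + 1), mul_assoc]; omega
      · have := g2 x
        rw [pow_succ' 2 (t + 1), mul_assoc]; omega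
  obtain ⟨t, rfl⟩ := Nat.exists_eq_add_of_le' ht
  obtain ⟨-, -, f, f1, f2⟩ := all t
  refine ⟨f, ⟨f1.1, fun u v k => ?_⟩, fun x => ?_⟩
  · obtain ⟨e, -, w, k1, k2⟩ := SimpleGraph.edist_eq_two_iff.1 (show (It G (t + 1)).edist u v = 2 by
      rw [← SimpleGraph.Reachable.coe_dist_eq_edist
        (SimpleGraph.Reachable.of_dist_ne_zero (by omega)), k]; rfl)
    exact f1.2 u v w e k1 k2
  · have := f2 x
    rw [Nat.sub_one_mul, Fintype.card_eq_nat_card]
    have := Nat.le_mul_of_pos_left (Nat.card V + 1) (show 0 < 2 ^ (t + 1) by positivity)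
    omega

end Pool.Agent.Results.MP_f0917b_co.Yes
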